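import Pool.Agent.Helper68.Fam.Goals

/-!
# Project FAM, packet BASE1
-/

namespace NApexGraphs.Fam.Helper57

open SimpleGraph NApexGraphs NApexGraphs.Dom NApexGraphs.Fam

theorem k33_of_finsets {V : Type} {H : SimpleGraph V} {Z : Set V} {A B : Finset V}
    (hA : A.card = 3) (hB : B.card = 3) (hAZ : (A : Set V) ⊆ Z) (hBZ : (B : Set V) ⊆ Z)
    (adj : ∀ a ∈ A, ∀ b ∈ B, H.Adj a b) : HasK33 H Z := by
  classical
  let eA := Finset.equivFinOfCardEq hA
  let eB := Finset.equivFinOfCardEq hB
  refine hasK33_mk (fun i => {((eA.symm i : A) : V)}) (fun i => {((eB.symm i : B) : V)})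
    (fun i => Conn.singleton _ _) (fun i => Conn.singleton _ _) ?_ ?_ ?_ ?_ ?_ ?_
  · intro i j hij
    rw [Set.disjoint_singleton]
    intro h
    exact hij (eA.symm.injective (Subtype.ext h))
  · intro i j hij
    rw [Set.disjoint_singleton]
    intro h
    exact hij (eB.symm.injective (Subtype.ext h))
  · intro i j
    rw [Set.disjoint_singleton]
    exact (adj _ (eA.symm i).2 _ (eB.symm j).2).ne
  · intro i j
    rw [touch_singleton]
    exact adj _ (eA.symm i).2 _ (eB.symm j).2
  · intro i
    rw [Set.singleton_subset_iff]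
    exact hAZ (eA.symm i).2
  · intro i
    rw [Set.singleton_subset_iff]
    exact hBZ (eB.symm i).2

theorem k5_of_finset {V : Type} {H : SimpleGraph V} {Z : Set V} {P : Finset V}
    (hP : P.card = 5) (hPZ : (P : Set V) ⊆ Z)
    (adj : ∀ a ∈ P, ∀ b ∈ P, a ≠ b → H.Adj a b) : HasK5 H Z := by
  classical
  let e := Finset.equivFinOfCardEq hP
  have hne : ∀ i j, i ≠ j → ((e.symm i : P) : V) ≠ ((e.symm j : P) : V) := by
    intro i j hij h
    exact hij (e.symm.injective (Subtype.ext h))
  refine ⟨fun i => {((e.symm i : P) : V)}, ?_, ?_⟩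
  · rw [isModel_iff]
    refine ⟨fun i => Conn.singleton _ _, ?_, ?_⟩
    · intro i j hij
      rw [Set.disjoint_singleton]
      exact hne i j hij
    · intro i j hij
      exact ⟨_, rfl, _, rfl, adj _ (e.symm i).2 _ (e.symm j).2 (hne i j hij.ne)⟩
  · intro i
    rw [Set.singleton_subset_iff]
    exact hPZ (e.symm i).2

theorem gBASE1 (hM : Goals.MADER) (hE : Goals.ECOUNT) : Goals.BASE1 := by
  intro V _ _ H P S hcard hpair hP hadj
  obtain ⟨P', hP'P, hP'⟩ := Finset.exists_subset_card_eq hP
  have hadj' : ∀ x ∈ P', ∀ y ∈ P', x ≠ y → (∀ T ∈ S, ¬ (x ∈ T ∧ y ∈ T)) → H.Adj x y :=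
    fun x hx y hy => hadj x (hP'P hx) y (hP'P hy)
  have hZ : (P' : Set V) ⊆ (P : Set V) := by exact_mod_cast hP'P
  rcases Nat.lt_or_ge S.card 3 with h3 | h3
  · have h4 : S.card = 0 ∨ S.card = 1 ∨ S.card = 2 := by omega
    rcases h4 with h0 | h1 | h2
    · rw [Finset.card_eq_zero] at h0
      subst h0
      intro hpl
      refine hpl.1 (k5_of_finset (P := P') (by simpa using hP') hZ ?_)
      intro a ha b hb hab
      exact hadj' a ha b hb hab (by simp)
    · obtain ⟨T, hT⟩ := Finset.card_eq_one.1 h1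
      subst hT
      have hc6 : P'.card = 6 := by rw [hP']; rfl
      have hT3 : T.card ≤ 3 := hcard T (Finset.mem_singleton_self T)
      obtain ⟨A, hA1, hA2, hA3⟩ := Finset.exists_subsuperset_card_eq
        (Finset.inter_subset_right : T ∩ P' ⊆ P')
        ((Finset.card_le_card Finset.inter_subset_left).trans hT3)
        (by omega : 3 ≤ P'.card)
      have hB3 : (P' \ A).card = 3 := by
        rw [Finset.card_sdiff_of_subset hA2]; omega
      intro hpl
      refine hpl.2 (k33_of_finsets hA3 hB3 ?_ ?_ ?_)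
      · exact fun x hx => hZ (hA2 hx)
      · intro x hx
        exact hZ (Finset.mem_sdiff.1 (Finset.mem_coe.1 hx)).1
      · intro a ha b hb
        rw [Finset.mem_sdiff] at hb
        refine hadj' a (hA2 ha) b hb.1 (fun h => hb.2 (h ▸ ha)) ?_
        intro T' hT' hab
        rw [Finset.mem_singleton] at hT'
        subst hT'
        exact hb.2 (hA1 (Finset.mem_inter.2 ⟨hab.2, hb.1⟩))
    · obtain ⟨T1, T2, h12, hT⟩ := Finset.card_eq_two.1 h2
      have hc7 : P'.card = 7 := by omega
      have m1 : T1 ∈ S := by rw [hT]; simp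
      have m2 : T2 ∈ S := by rw [hT]; simp
      have c1 := hcard T1 m1
      have c2 := hcard T2 m2
      have c12 := hpair T1 m1 T2 m2 h12
      set Q := P' \ (T1 ∩ T2) with hQ
      have hQ6 : 6 ≤ Q.card := by
        have h5 := Finset.le_card_sdiff (T1 ∩ T2) P'
        rw [← hQ] at h5
        omega
      have hQT2 : 3 ≤ (Q \ T2).card := by
        have h5 := Finset.le_card_sdiff T2 Q
        omega
      have hsub1 : T1 ∩ Q ⊆ Q \ T2 := by
        intro x hx
        rw [Finset.mem_inter] at hx
        rw [Finset.mem_sdiff]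
        refine ⟨hx.2, fun h => ?_⟩
        rw [hQ, Finset.mem_sdiff] at hx
        exact hx.2.2 (Finset.mem_inter.2 ⟨hx.1, h⟩)
      obtain ⟨A, hA1, hA2, hA3⟩ := Finset.exists_subsuperset_card_eq hsub1
        ((Finset.card_le_card Finset.inter_subset_left).trans c1) hQT2
      have hsub2 : T2 ∩ Q ⊆ Q \ A := by
        intro x hx
        rw [Finset.mem_inter] at hx
        rw [Finset.mem_sdiff]
        refine ⟨hx.2, fun h => ?_⟩
        exact (Finset.mem_sdiff.1 (hA2 h)).2 hx.1
      have hQA : 3 ≤ (Q \ A).card := by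
        have h5 := Finset.le_card_sdiff A Q
        omega
      obtain ⟨B, hB1, hB2, hB3⟩ := Finset.exists_subsuperset_card_eq hsub2
        ((Finset.card_le_card Finset.inter_subset_left).trans c2) hQA
      have hQP : ∀ x ∈ Q, x ∈ P' := fun x hx => (Finset.mem_sdiff.1 hx).1
      intro hpl
      refine hpl.2 (k33_of_finsets hA3 hB3 ?_ ?_ ?_)
      · intro x hx
        exact hZ (hQP x (Finset.mem_sdiff.1 (hA2 hx)).1)
      · intro x hx
        exact hZ (hQP x (Finset.mem_sdiff.1 (hB2 hx)).1)
      · intro a ha b hb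
        have ha' := Finset.mem_sdiff.1 (hA2 ha)
        have hb' := Finset.mem_sdiff.1 (hB2 hb)
        refine hadj' a (hQP a ha'.1) b (hQP b hb'.1) (fun h => hb'.2 (h ▸ ha)) ?_
        intro T' hT' hab
        rw [hT] at hT'
        simp only [Finset.mem_insert, Finset.mem_singleton] at hT'
        rcases hT' with rfl | rfl
        · exact hb'.2 (hA1 (Finset.mem_inter.2 ⟨hab.2, hb'.1⟩))
        · exact ha'.2 hab.1
  · intro hpl
    refine hpl.1 ?_
    have h5 := hE V H P' S hcard hadj'
    have h6 : HasK5 H (P' : Set V) := by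
      apply hM V H P' (by omega)
      obtain ⟨k, hk⟩ : ∃ k, S.card = k + 3 := ⟨S.card - 3, by omega⟩
      rw [hP', hk] at h5 ⊢
      have h7 : (k + 3 + 5) * (k + 3 + 5 - 1) = k * k + 15 * k + 56 := by
        have : k + 3 + 5 - 1 = k + 7 := by omega
        rw [this]; ring
      rw [h7] at h5
      have h8 : 0 ≤ k * k := Nat.zero_le _
      omega
    exact h6.mono le_rfl hZ

end NApexGraphs.Fam.Helper57
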